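import Pool.Agent.W637.CBH.Star

/-! If `H^2` of the realization vanishes then every alternating simplicial two-cocycle is a
coboundary. -/

namespace Pool.Agent.W637.CBH

open Pool.Agent.Helper663.Sc

universe u v

section Alt

variable {V : Type u} (A : V → V → V → ℤ) (h1 : ∀ x y z, A y x z = - A x y z)
  (h2 : ∀ x y z, A x z y = - A x y z)

include h1 in
theorem alt12 (x z : V) : A x x z = 0 := by
  have := h1 x x z
  omega

include h2 in
theorem alt23 (x z : V) : A z x x = 0 := by
  have := h2 z x x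
  omega

include h1 h2 in
theorem alt13 (x z : V) : A x z x = 0 := by
  rw [h2]
  rw [alt12 A h1]
  rfl

include h1 h2 in
/-- the cocycle identity for possibly repeated vertices -/
theorem coc4 (K : Finset V → Prop)
    (h3 : ∀ s : Finset V, K s → ∀ a ∈ s, ∀ b ∈ s, ∀ c ∈ s, ∀ d ∈ s, a ≠ b → a ≠ c → a ≠ d → b ≠ c →
      b ≠ d → c ≠ d → A b c d - A a c d + A a b d - A a b c = 0)
    (s : Finset V) (hs : K s) (a b c d : V) (ha : a ∈ s) (hb : b ∈ s) (hc : c ∈ s) (hd : d ∈ s) :
    A b c d - A a c d + A a b d - A a b c = 0 := by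
  have e1 := alt12 A h1
  have e2 := alt23 A h2
  have e3 := alt13 A h1 h2
  by_cases hab : a = b
  · subst hab; rw [e1, e1]; ring
  by_cases hac : a = c
  · subst hac; rw [e1, e3, h1 a b d]; ring
  by_cases had : a = d
  · subst had; rw [e3, e3, h1 b a c, h2 b c a]; ring
  by_cases hbc : b = c
  · subst hbc; rw [e1, e2]; ring
  by_cases hbd : b = d
  · subst hbd; rw [e3, e2, h2 a b c]; ring
  by_cases hcd : c = d
  · subst hcd; rw [e2, e2]; ring
  exact h3 s hs a ha b hb c hc d hd hab hac had hbc hbd hcd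

end Alt

section Main

variable {V : Type u} [LinearOrder V] {K : Finset V → Prop}

open Classical in
/-- the simplex of an open star -/
noncomputable def pick (C : Set (Real K)) : Finset V :=
  if h : ∃ t : Finset V, K t ∧ t.Nonempty ∧ C = St K t then h.choose else ∅

omit [LinearOrder V] in
theorem pick_St (t : Finset V) (hKt : K t) (ht : t.Nonempty) : pick (St K t) = t := by
  have h : ∃ t' : Finset V, K t' ∧ t'.Nonempty ∧ St K t = St K t' := ⟨t, hKt, ht, rfl⟩
  rw [pick, dif_pos h]
  obtain ⟨a, b, c⟩ := h.choose_spec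
  exact (St_inj hKt ht a b c).symm

open Classical in
/-- the smallest vertex of a finite set -/
noncomputable def mn [Nonempty V] (t : Finset V) : V :=
  if h : t.Nonempty then t.min' h else Classical.arbitrary V

theorem mn_mem [Nonempty V] (t : Finset V) (ht : t.Nonempty) : mn t ∈ t := by
  rw [mn, dif_pos ht]
  exact Finset.min'_mem _ _

theorem mn_le [Nonempty V] (t : Finset V) (x : V) (hx : x ∈ t) : mn t ≤ x := by
  rw [mn, dif_pos ⟨x, hx⟩]
  exact Finset.min'_le _ _ hx

theorem mn_one [Nonempty V] (x : V) : mn {x} = x := by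
  have := mn_mem {x} (Finset.singleton_nonempty x)
  simpa using this

theorem mn_eq [Nonempty V] (t : Finset V) (x : V) (hx : x ∈ t) (h : ∀ y ∈ t, x ≤ y) : mn t = x :=
  le_antisymm (mn_le t x hx) (h _ (mn_mem t ⟨x, hx⟩))

/-- The main comparison. -/
theorem exists_primitive [Nonempty V] [Nonempty (Real K)]
    (hK : ∀ s t, K s → t ⊆ s → t.Nonempty → K t) (hV : VC (Real K) 1)
    (A : V → V → V → ℤ) (h1 : ∀ x y z, A y x z = - A x y z) (h2 : ∀ x y z, A x z y = - A x y z)
    (h3 : ∀ s : Finset V, K s → ∀ a ∈ s, ∀ b ∈ s, ∀ c ∈ s, ∀ d ∈ s, a ≠ b → a ≠ c → a ≠ d → b ≠ c →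
      b ≠ d → c ≠ d → A b c d - A a c d + A a b d - A a b c = 0) :
    ∃ E : V → V → ℤ, ∀ x y z : V, x ≠ y → x ≠ z → y ≠ z → K {x, y, z} →
      A x y z = E x y + E y z - E x z := by
  classical
  let g : Ch (SS K) 2 → ℤ := fun c => A (mn (pick (c.1 0))) (mn (pick (c.1 1))) (mn (pick (c.1 2)))
  have hg : altd ℤ (cface (Q := SS K)) 2 g = 0 := by
    funext c
    rw [altd_apply, Fin.sum_univ_four]
    have f0 : g (cface 2 0 c) = A (mn (pick (c.1 1))) (mn (pick (c.1 2))) (mn (pick (c.1 3))) := rfl
    have f1 : g (cface 2 1 c) = A (mn (pick (c.1 0))) (mn (pick (c.1 2))) (mn (pick (c.1 3))) := rfl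
    have f2 : g (cface 2 2 c) = A (mn (pick (c.1 0))) (mn (pick (c.1 1))) (mn (pick (c.1 3))) := rfl
    have f3 : g (cface 2 3 c) = A (mn (pick (c.1 0))) (mn (pick (c.1 1))) (mn (pick (c.1 2))) := rfl
    rw [f0, f1, f2, f3]
    obtain ⟨t0, hKt0, ht0, e0⟩ := c.2.2 0
    have hm : ∀ i, mn (pick (c.1 i)) ∈ t0 := by
      intro i
      obtain ⟨t, hKt, ht, e⟩ := c.2.2 i
      have hle : c.1 0 ≤ c.1 i := c.2.1.monotone (Fin.zero_le _)
      rw [e0, e] at hle
      have hsub := (St_subset_iff hKt0 ht0).mp hle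
      rw [e, pick_St t hKt ht]
      exact hsub (mn_mem t ht)
    have := coc4 A h1 h2 K h3 t0 hKt0 _ _ _ _ (hm 0) (hm 1) (hm 2) (hm 3)
    simp only [Pi.zero_apply]
    rw [← this]
    norm_num
    ring
  obtain ⟨b, hb⟩ := ord_cobound hK hV g hg
  let B : Finset V → Finset V → ℤ := fun s t =>
    if h : (StrictMono ![St K t, St K s] ∧ ∀ i, ![St K t, St K s] i ∈ SS K) then b ⟨_, h⟩ else 0
  have flag : ∀ s0 s1 s2 : Finset V, s0.Nonempty → s0 ⊂ s1 → s1 ⊂ s2 → K s2 →
      A (mn s2) (mn s1) (mn s0) = B s0 s1 - B s0 s2 + B s1 s2 := by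
    intro s0 s1 s2 hs0 h01 h12 hK2
    have hs1 : s1.Nonempty := hs0.mono h01.1
    have hs2 : s2.Nonempty := hs1.mono h12.1
    have hK1 : K s1 := hK s2 s1 hK2 h12.1 hs1
    have hK0 : K s0 := hK s1 s0 hK1 h01.1 hs0
    have lt : ∀ s t : Finset V, K s → s.Nonempty → K t → t.Nonempty → s ⊂ t → St K t < St K s := by
      intro s t hKs hs hKt ht hst
      refine ⟨St_mono hst.1, fun h => hst.2 ?_⟩
      exact (St_subset_iff hKs hs).mp h
    have lt01 := lt s0 s1 hK0 hs0 hK1 hs1 h01
    have lt12 := lt s1 s2 hK1 hs1 hK2 hs2 h12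
    have lt02 := lt12.trans lt01
    have m0 : St K s0 ∈ SS K := ⟨s0, hK0, hs0, rfl⟩
    have m1 : St K s1 ∈ SS K := ⟨s1, hK1, hs1, rfl⟩
    have m2 : St K s2 ∈ SS K := ⟨s2, hK2, hs2, rfl⟩
    have pairOK : ∀ a b : Set (Real K), a < b → a ∈ SS K → b ∈ SS K →
        (StrictMono ![a, b] ∧ ∀ i, ![a, b] i ∈ SS K) := by
      intro a b hab ha hb
      refine ⟨?_, ?_⟩
      · rw [Fin.strictMono_iff_lt_succ]
        intro i
        fin_cases i
        exact hab
      · intro i
        fin_cases i
        · exact ha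
        · exact hb
    have tripOK : (StrictMono ![St K s2, St K s1, St K s0] ∧
        ∀ i, ![St K s2, St K s1, St K s0] i ∈ SS K) := by
      refine ⟨?_, ?_⟩
      · rw [Fin.strictMono_iff_lt_succ]
        intro i
        fin_cases i
        · exact lt12
        · exact lt01
      · intro i
        fin_cases i
        · exact m2
        · exact m1
        · exact m0
    have key := congrFun hb ⟨_, tripOK⟩
    rw [altd_apply, Fin.sum_univ_three] at key
    have q0 : b (cface 1 0 ⟨_, tripOK⟩) = B s0 s1 := by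
      have h := pairOK _ _ lt01 m1 m0
      have e : B s0 s1 = b ⟨_, h⟩ := dif_pos h
      rw [e]
      exact congrArg b (Subtype.ext (by funext i; fin_cases i <;> rfl))
    have q1 : b (cface 1 1 ⟨_, tripOK⟩) = B s0 s2 := by
      have h := pairOK _ _ lt02 m2 m0
      have e : B s0 s2 = b ⟨_, h⟩ := dif_pos h
      rw [e]
      exact congrArg b (Subtype.ext (by funext i; fin_cases i <;> rfl))
    have q2 : b (cface 1 2 ⟨_, tripOK⟩) = B s1 s2 := by
      have h := pairOK _ _ lt12 m2 m1
      have e : B s1 s2 = b ⟨_, h⟩ := dif_pos h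
      rw [e]
      exact congrArg b (Subtype.ext (by funext i; fin_cases i <;> rfl))
    rw [q0, q1, q2] at key
    have kl : g ⟨_, tripOK⟩ = A (mn s2) (mn s1) (mn s0) := by
      change A (mn (pick (St K s2))) (mn (pick (St K s1))) (mn (pick (St K s0))) = _
      rw [pick_St s2 hK2 hs2, pick_St s1 hK1 hs1, pick_St s0 hK0 hs0]
    rw [kl] at key
    rw [key]
    norm_num
    ring
  refine ⟨fun x y => B {y} {x, y} - B {x} {x, y}, ?_⟩
  intro x y z hxy hxz hyz hKxyz
  have ss : ∀ a b : V, a ≠ b → ({a} : Finset V) ⊂ {a, b} ∧ ({b} : Finset V) ⊂ {a, b} := by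
    intro a b hab
    refine ⟨⟨by simp, ?_⟩, ⟨by simp, ?_⟩⟩
    · intro h
      have := h (show b ∈ ({a, b} : Finset V) by simp)
      simp only [Finset.mem_singleton] at this
      exact hab this.symm
    · intro h
      have := h (show a ∈ ({a, b} : Finset V) by simp)
      simp only [Finset.mem_singleton] at this
      exact hab this
  have t1 : ({x, y} : Finset V) ⊂ {x, y, z} := by
    refine ⟨by intro v; simp; tauto, fun h => ?_⟩
    have := h (show z ∈ ({x, y, z} : Finset V) by simp)
    simp only [Finset.mem_insert, Finset.mem_singleton] at this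
    rcases this with h | h
    · exact hxz h.symm
    · exact hyz h.symm
  have t2 : ({y, z} : Finset V) ⊂ {x, y, z} := by
    refine ⟨by intro v; simp; tauto, fun h => ?_⟩
    have := h (show x ∈ ({x, y, z} : Finset V) by simp)
    simp only [Finset.mem_insert, Finset.mem_singleton] at this
    rcases this with h | h
    · exact hxy h
    · exact hxz h
  have t3 : ({x, z} : Finset V) ⊂ {x, y, z} := by
    refine ⟨by intro v; simp; tauto, fun h => ?_⟩
    have := h (show y ∈ ({x, y, z} : Finset V) by simp)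
    simp only [Finset.mem_insert, Finset.mem_singleton] at this
    rcases this with h | h
    · exact hxy h.symm
    · exact hyz h
  have i1 := flag {x} {x, y} {x, y, z} (by simp) (ss x y hxy).1 t1 hKxyz
  have i2 := flag {y} {x, y} {x, y, z} (by simp) (ss x y hxy).2 t1 hKxyz
  have i3 := flag {y} {y, z} {x, y, z} (by simp) (ss y z hyz).1 t2 hKxyz
  have i4 := flag {z} {y, z} {x, y, z} (by simp) (ss y z hyz).2 t2 hKxyz
  have i5 := flag {z} {x, z} {x, y, z} (by simp) (ss x z hxz).2 t3 hKxyz
  have i6 := flag {x} {x, z} {x, y, z} (by simp) (ss x z hxz).1 t3 hKxyz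
  rw [mn_one] at i1 i2 i3 i4 i5 i6
  have e1 := alt12 A h1
  have e2 := alt23 A h2
  have e3 := alt13 A h1 h2
  have two : ∀ a b : V, a ≤ b → mn ({a, b} : Finset V) = a := by
    intro a b hab
    apply mn_eq _ _ (by simp)
    intro v hv
    simp only [Finset.mem_insert, Finset.mem_singleton] at hv
    rcases hv with rfl | rfl
    · exact le_rfl
    · exact hab
  have two' : ∀ a b : V, b ≤ a → mn ({a, b} : Finset V) = b := by
    intro a b hab
    rw [Finset.pair_comm, two b a hab]
  have three : ∀ a : V, a ∈ ({x, y, z} : Finset V) → a ≤ x → a ≤ y → a ≤ z →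
      mn ({x, y, z} : Finset V) = a := by
    intro a ha hx hy hz
    apply mn_eq _ _ ha
    intro v hv
    simp only [Finset.mem_insert, Finset.mem_singleton] at hv
    rcases hv with rfl | rfl | rfl
    · exact hx
    · exact hy
    · exact hz
  have target : A (mn {x, y, z}) (mn {x, y}) x - A (mn {x, y, z}) (mn {x, y}) y +
      A (mn {x, y, z}) (mn {y, z}) y - A (mn {x, y, z}) (mn {y, z}) z +
      A (mn {x, y, z}) (mn {x, z}) z - A (mn {x, y, z}) (mn {x, z}) x = - A x y z := by
    rcases le_total x y with hxy' | hxy' <;> rcases le_total x z with hxz' | hxz' <;>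
      rcases le_total y z with hyz' | hyz'
    · rw [three x (by simp) le_rfl hxy' hxz', two x y hxy', two y z hyz', two x z hxz']
      simp only [e1, e2]; ring
    · rw [three x (by simp) le_rfl hxy' hxz', two x y hxy', two' y z hyz', two x z hxz']
      simp only [e1, e2]; rw [h2 x y z]; ring
    · exact absurd (le_antisymm hxz' (hxy'.trans hyz')) (Ne.symm hxz)
    · rw [three z (by simp) hxz' hyz' le_rfl, two x y hxy', two' y z hyz', two' x z hxz']
      simp only [e1, e2]
      have := h1 x z y
      have := h2 x y z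
      linarith
    · rw [three y (by simp) hxy' le_rfl hyz', two' x y hxy', two y z hyz', two x z hxz']
      simp only [e1, e2]
      have := h1 x y z
      linarith
    · exact absurd (le_antisymm (hxz'.trans hyz') hxy') hxy
    · rw [three y (by simp) hxy' le_rfl hyz', two' x y hxy', two y z hyz', two' x z hxz']
      simp only [e1, e2]
      have := h1 x y z
      have := h2 y x z
      linarith
    · rw [three z (by simp) hxz' hyz' le_rfl, two' x y hxy', two' y z hyz', two' x z hxz']
      simp only [e1, e2]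
      have := h1 x y z
      have := h2 y x z
      have := h1 y z x
      linarith
  change A x y z = (B {y} {x, y} - B {x} {x, y}) + (B {z} {y, z} - B {y} {y, z}) -
    (B {z} {x, z} - B {x} {x, z})
  linarith

end Main

end Pool.Agent.W637.CBH
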