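import Pool.Agent.W637.CBH.Wedge

/-! `H^2 = 0` for wedges of three-spheres. -/

namespace Pool.Agent.W637.CBH

open Pool.Agent.Helper663.Sc

universe u v

section

variable {ι : Type u} {d : ℕ}

/-- the union of the copies of `A` in the wedge -/
def WA (ι : Type u) (A : Set (Sph d)) : Set (Wedge ι d) := {w | ∃ (i : ι) (x : Sph d), x ∈ A ∧ w = ws i x}

theorem ws_mem_WA {A : Set (Sph d)} (hA : base d ∉ A) (i : ι) (x : Sph d) :
    ws i x ∈ WA ι A ↔ x ∈ A := by
  constructor
  · rintro ⟨j, y, hy, h⟩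
    have hyb : y ≠ base d := fun h' => hA (h' ▸ hy)
    rw [← (ws_inj h.symm hyb).2]
    exact hy
  · intro h
    exact ⟨i, x, h, rfl⟩

theorem wb_not_mem_WA {A : Set (Sph d)} (hA : base d ∉ A) : wb ι d ∉ WA ι A := by
  rintro ⟨j, y, hy, h⟩
  have hyb : y ≠ base d := fun h' => hA (h' ▸ hy)
  exact ws_ne_wb hyb h.symm

theorem isOpen_WA {A : Set (Sph d)} (hA : base d ∉ A) (hAo : IsOpen A) : IsOpen (WA ι A) := by
  rw [wedge_isOpen_iff]
  intro i
  have : ws i ⁻¹' (WA ι A) = A := by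
    ext x
    exact ws_mem_WA hA i x
  rw [this]
  exact hAo

theorem VC_WA {A : Set (Sph d)} (hA : base d ∉ A) (hAo : IsOpen A) (n : ℕ) (h : VC A n) :
    VC (WA ι A) n := by
  have hs := VC_sigma (X := fun _ : ι => A) n (fun _ => h)
  have hex : ∀ w : WA ι A, ∃ (i : ι) (x : Sph d), x ∈ A ∧ w.1 = ws i x := fun w => w.2
  choose I P hP hw using hex
  let s : WA ι A → (Σ _ : ι, A) := fun w => ⟨I w, ⟨P w, hP w⟩⟩
  have hsc : Continuous s := by
    have h1 : Continuous (fun p : WA ι A × Unit => s p.1) := by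
      apply wedge_continuous_on_open (WA ι A) (isOpen_WA hA hAo)
      · intro hb
        exact absurd hb (wb_not_mem_WA hA)
      · intro i
        have : (fun p : {x : Sph d // ws i x ∈ WA ι A} × Unit =>
            s (⟨ws i p.1.1, p.1.2⟩, p.2).1) =
            fun p => ⟨i, ⟨p.1.1, (ws_mem_WA hA i p.1.1).mp p.1.2⟩⟩ := by
          funext p
          have hp : p.1.1 ∈ A := (ws_mem_WA hA i p.1.1).mp p.1.2
          have hpb : p.1.1 ≠ base d := fun h' => hA (h' ▸ hp)
          obtain ⟨e1, e2⟩ := ws_inj (hw ⟨ws i p.1.1, p.1.2⟩) hpb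
          change (⟨I ⟨ws i p.1.1, p.1.2⟩, ⟨P ⟨ws i p.1.1, p.1.2⟩, _⟩⟩ : Σ _ : ι, A) = _
          refine Sigma.ext e1.symm ?_
          apply heq_of_eq
          exact Subtype.ext e2.symm
        rw [this]
        exact continuous_sigmaMk.comp
          ((continuous_subtype_val.comp continuous_fst).subtype_mk _)
    exact h1.comp (continuous_id.prodMk continuous_const : Continuous fun w : WA ι A => (w, ()))
  let r : (Σ _ : ι, A) → WA ι A := fun z => ⟨ws z.1 z.2.1, z.1, z.2.1, z.2.2, rfl⟩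
  have hr : Continuous r := by
    rw [continuous_sigma_iff]
    intro i
    exact ((continuous_ws i).comp continuous_subtype_val).subtype_mk _
  refine VC_of_retract (⟨s, hsc⟩ : C(WA ι A, Σ _ : ι, A)) ⟨r, hr⟩ ?_ n hs
  apply ContinuousMap.ext
  intro w
  apply Subtype.ext
  exact (hw w).symm

theorem base_ne_neg : base d ≠ -base d := ne_neg_self _

/-- the complement of the antipodes of the base points -/
def UA (ι : Type u) (d : ℕ) : Set (Wedge ι d) := {w | ∀ i, w ≠ ws i (-base d)}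

theorem wb_mem_UA : wb ι d ∈ UA ι d := fun _ h => ws_ne_wb base_ne_neg.symm h.symm

theorem ws_mem_UA (i : ι) (x : Sph d) : ws i x ∈ UA ι d ↔ x ≠ -base d := by
  constructor
  · rintro h rfl
    exact h i rfl
  · intro hx j h
    exact hx (ws_inj h.symm base_ne_neg.symm).2.symm

theorem isOpen_UA : IsOpen (UA ι d) := by
  rw [wedge_isOpen_iff]
  intro i
  have : ws i ⁻¹' (UA ι d) = {-base d}ᶜ := by
    ext x
    exact ws_mem_UA i x
  rw [this]
  exact isOpen_compl_singleton

/-- contraction to the base point -/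
noncomputable def ctr (t : unitInterval) : Wedge ι d → Wedge ι d :=
  Quot.lift (Sum.elim (fun _ => wb ι d) (fun z => ws z.1 (gg (base d) z.2 t))) (by
    rintro a b ⟨i⟩
    change ws i (gg (base d) (base d) t) = wb ι d
    rw [gg_self, ws_base])

theorem ctr_wb (t : unitInterval) : ctr t (wb ι d) = wb ι d := rfl

theorem ctr_ws (t : unitInterval) (i : ι) (x : Sph d) :
    ctr t (ws i x) = ws i (gg (base d) x t) := rfl

theorem ctr_mem (t : unitInterval) (w : Wedge ι d) (hw : w ∈ UA ι d) : ctr t w ∈ UA ι d := by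
  rcases wedge_cases w with rfl | ⟨i, x, _, rfl⟩
  · exact hw
  · rw [ctr_ws, ws_mem_UA]
    exact gg_ne _ _ _ ((ws_mem_UA i x).mp hw)

theorem AC_UA : AC (UA ι d) := by
  have hc : Continuous fun p : UA ι d × unitInterval => ctr p.2 p.1.1 := by
    apply wedge_continuous_on_open (UA ι d) isOpen_UA
    · intro h
      exact continuous_const
    · intro i
      change Continuous fun p : {x : Sph d // ws i x ∈ UA ι d} × unitInterval =>
        ws i (gg (base d) p.1.1 p.2)
      exact (continuous_ws i).comp (continuous_gg (base d)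
        (fun p : {x : Sph d // ws i x ∈ UA ι d} × unitInterval => p.1.1)
        (continuous_subtype_val.comp continuous_fst) Prod.snd continuous_snd
        (fun p => (ws_mem_UA i p.1.1).mp p.1.2))
  have hone : ∀ w ∈ UA ι d, ctr 1 w = wb ι d := by
    intro w hw
    rcases wedge_cases w with rfl | ⟨i, x, _, rfl⟩
    · rfl
    · rw [ctr_ws, gg_one _ _ ((ws_mem_UA i x).mp hw), ws_base]
  refine AC_of_const ⟨fun p : UA ι d × unitInterval => ⟨ctr p.2 p.1.1, ctr_mem _ _ p.1.2⟩,
    hc.subtype_mk _⟩ ?_ ?_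
  · apply ContinuousMap.ext
    intro w
    apply Subtype.ext
    change ctr 0 w.1 = w.1
    obtain ⟨w, hw⟩ := w
    rcases wedge_cases w with rfl | ⟨i, x, _, rfl⟩
    · rfl
    · change ctr 0 (ws i x) = ws i x
      rw [ctr_ws, gg_zero _ _ ((ws_mem_UA i x).mp hw)]
  · intro n σ t
    apply Subtype.ext
    change ctr 1 (σ t).1 = ctr 1 (σ _).1
    rw [hone _ (σ t).2, hone _ (σ _).2]

end

/-- The second singular cohomology of a wedge of three-spheres vanishes. -/
theorem VC_wedge (ι : Type u) : VC (Wedge ι 3) 1 := by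
  have hA1 : base 3 ∉ ({x : Sph 3 | x ≠ base 3} : Set (Sph 3)) := fun h => h rfl
  have hA2 : base 3 ∉ A2 := fun h => h.1 rfl
  have hO1 : IsOpen ({x : Sph 3 | x ≠ base 3} : Set (Sph 3)) := isOpen_compl_singleton
  have hO2 : IsOpen A2 := IsOpen.inter isOpen_compl_singleton isOpen_compl_singleton
  apply VC_glue (UA ι 3) (WA ι {x : Sph 3 | x ≠ base 3}) isOpen_UA (isOpen_WA hA1 hO1)
  · intro w
    rcases wedge_cases w with rfl | ⟨i, x, hx, rfl⟩
    · exact Or.inl wb_mem_UA
    · exact Or.inr ⟨i, x, hx, rfl⟩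
  · exact VC_of_AC AC_UA 1
  · exact VC_WA hA1 hO1 1 (VC_of_AC (AC_compl 3) 1)
  · have : UA ι 3 ∩ WA ι {x : Sph 3 | x ≠ base 3} = WA ι A2 := by
      ext w
      constructor
      · rintro ⟨h1, ⟨i, x, hx, rfl⟩⟩
        exact ⟨i, x, ⟨hx, (ws_mem_UA i x).mp h1⟩, rfl⟩
      · rintro ⟨i, x, ⟨hx, hx'⟩, rfl⟩
        exact ⟨(ws_mem_UA i x).mpr hx', ⟨i, x, hx, rfl⟩⟩
    rw [this]
    exact VC_WA hA2 hO2 0 VC_A2

end Pool.Agent.W637.CBH
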