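import Pool.Agent.W584.Octa
import Pool.Agent.W637.CBH.Chain
import Pool.Agent.W637.CBH.WedgeVC

/-!
# The common basis complex `CB(R^3)`, `R = ℤ[1/11]`, has nonzero second cohomology

The cocycle and the octahedron are those of `Pool.Agent.W584` (helper584); the proof of `facts` is
also from there (`Results/MP_ca431a_al/RognesConnectivity.lean`).
-/

namespace Pool.Agent.W637.CBH

open Pool.Agent.W584

section aux

variable {R : Type} [CommRing R] [IsDomain R]

/-- The facts about three independent lines which are needed. -/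
structure Facts (X Y Z : Submodule R (V3 R)) : Prop where
  h1 : X ≠ Y
  h2 : X ≠ Z
  h3 : Y ≠ Z
  h4 : ∀ s : Finset (Submodule R (V3 R)), (∀ W ∈ s, W = X ∨ W = Y ∨ W = Z) → CB R 3 s

theorem facts {a1 a2 a3 b1 b2 b3 c1 c2 c3 : ℤ}
    (hdet : IsUnit ((a1 * (b2 * c3 - b3 * c2) - b1 * (a2 * c3 - a3 * c2) +
      c1 * (a2 * b3 - a3 * b2) : ℤ) : R)) :
    Facts (l3 R a1 a2 a3) (l3 R b1 b2 b3) (l3 R c1 c2 c3) := by
  obtain ⟨b, e0, e1, e2⟩ := three_lines hdet
  have key : ∀ i j : Fin 3, i ≠ j → S b {i} ≠ S b {j} := by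
    intro i j hij h
    rw [S_eq_S_iff] at h
    exact hij (Set.singleton_injective h)
  have hprop : ∀ i : Fin 3, IsSummand R 3 (S b {i}) ∧ S b {i} ≠ ⊥ ∧ S b {i} ≠ ⊤ := by
    intro i
    refine ⟨⟨_, isCompl_S b {i}⟩, ?_, ?_⟩
    · intro h
      have h1 : b i ∈ S b {i} := b_mem_S b (Set.mem_singleton i)
      rw [h, Submodule.mem_bot] at h1
      exact b.ne_zero i h1
    · intro h
      obtain ⟨j, hj⟩ : ∃ j : Fin 3, j ≠ i := exists_ne i
      have h1 : b j ∈ S b {i} := by rw [h]; trivial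
      rw [mem_S] at h1
      have := h1 j (by simpa using hj)
      simp at this
  refine ⟨?_, ?_, ?_, ?_⟩
  · rw [e0, e1]; exact key 0 1 (by decide)
  · rw [e0, e2]; exact key 0 2 (by decide)
  · rw [e1, e2]; exact key 1 2 (by decide)
  · intro s hs
    refine ⟨?_, b, ?_⟩
    · intro W hW
      rcases hs W hW with rfl | rfl | rfl
      · rw [e0]; exact hprop 0
      · rw [e1]; exact hprop 1
      · rw [e2]; exact hprop 2
    · intro W hW
      rcases hs W hW with rfl | rfl | rfl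
      · exact ⟨{0}, e0⟩
      · exact ⟨{1}, e1⟩
      · exact ⟨{2}, e2⟩

omit [IsDomain R] in
theorem CB_down (s t : Finset (Submodule R (V3 R))) (hs : CB R 3 s) (hts : t ⊆ s) : CB R 3 t := by
  obtain ⟨h1, b, h2⟩ := hs
  exact ⟨fun W hW => h1 W (hts hW), b, fun W hW => h2 W (hts hW)⟩

/-- `H^2` of the realization of `CB(R^3)` is not zero. -/
theorem not_VC (H : IsZ11 R) : ¬ VC (Real (CB R 3)) 1 := by
  intro hV
  have t1 : Facts (l3 R 1 0 0) (l3 R 0 1 0) (l3 R 0 0 1) := facts (unit_of H (by norm_num))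
  have t2 : Facts (l3 R 1 0 (-3)) (l3 R 0 1 0) (l3 R 0 0 1) := facts (unit_of H (by norm_num))
  have t3 : Facts (l3 R 1 0 0) (l3 R 2 1 0) (l3 R 0 0 1) := facts (unit_of H (by norm_num))
  have t4 : Facts (l3 R 1 0 0) (l3 R 0 1 0) (l3 R 0 2 1) := facts (unit_of H (by norm_num))
  have t5 : Facts (l3 R 1 0 0) (l3 R 2 1 0) (l3 R 0 2 1) := facts (unit_of H (by norm_num))
  have t6 : Facts (l3 R 1 0 (-3)) (l3 R 0 1 0) (l3 R 0 2 1) := facts (unit_of H (by norm_num))
  have t7 : Facts (l3 R 1 0 (-3)) (l3 R 2 1 0) (l3 R 0 0 1) := facts (unit_of H (by norm_num))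
  have t8 : Facts (l3 R 1 0 (-3)) (l3 R 2 1 0) (l3 R 0 2 1) := facts (unit_of H (by norm_num))
  obtain ⟨lo, _⟩ := exists_wellFoundedLT (Submodule R (V3 R))
  have hne : Nonempty (Real (CB R 3)) :=
    ⟨bar {l3 R 1 0 0} (t1.h4 _ (by simp)) (by simp)⟩
  obtain ⟨E, hE⟩ := @exists_primitive (Submodule R (V3 R)) lo (CB R 3) _ hne
    (fun s t hs hts _ => CB_down s t hs hts) hV AA (fun x y z => AA_swap1 x y z)
    (fun x y z => AA_swap2 x y z) (by
      intro s hK x hx y hy z hz w hw h1 h2 h3 h4 h5 h6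
      have hCom : Com (s : Set (Submodule R (V3 R))) := ⟨fun W hW => (hK.1 W hW).2, hK.2⟩
      exact AA_cocycle H hCom hx hy hz hw h1 h2 h3 h4 h5 h6)
  have go : ∀ {X Y Z : Submodule R (V3 R)}, Facts X Y Z → AA X Y Z = E X Y + E Y Z - E X Z := by
    intro X Y Z h
    exact hE X Y Z h.h1 h.h2 h.h3 (h.h4 _ (by simp))
  have h10 := AA_octahedron H
  rw [go t1, go t2, go t3, go t4, go t5, go t6, go t7, go t8] at h10
  omega

end aux

end Pool.Agent.W637.CBH
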