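import Pool.Agent.Helper663.Sc.MV

/-! Vanishing of singular cohomology in one degree: retracts, disjoint unions, gluing. -/

namespace Pool.Agent.W637.CBH

open Pool.Agent.Helper663.Sc

universe u v w

/-- `H^(n+1)(X; ℤ) = 0` for singular cohomology. -/
def VC (X : Type u) [TopologicalSpace X] (n : ℕ) : Prop :=
  ∀ (c : Sing X (n + 1) → ℤ), altd ℤ (sface (X := X)) (n + 1) c = 0 →
    ∃ b : Sing X n → ℤ, c = altd ℤ (sface (X := X)) n b

section Basic

variable {X : Type u} [TopologicalSpace X] {Y : Type v} [TopologicalSpace Y]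

theorem VC_of_AC (h : AC X) (n : ℕ) : VC X n := h n

theorem VC_of_homotopy (s : C(X, Y)) (r : C(Y, X)) (H : C(X × unitInterval, X))
    (h0 : slice H 0 = ContinuousMap.id X) (h1 : slice H 1 = r.comp s) (n : ℕ) (hY : VC Y n) :
    VC X n := by
  intro c hc
  obtain ⟨d, hd⟩ := exists_altd_eq_pb_sub H c hc
  have e1 : altd ℤ (sface (X := Y)) (n + 1) (pb r c) = 0 := by
    rw [altd_pb, hc]
    rfl
  obtain ⟨b', hb'⟩ := hY _ e1
  refine ⟨pb s b' - d, ?_⟩
  rw [map_sub, altd_pb, ← hb', ← hd, h0, h1]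
  funext σ
  simp [pb, ContinuousMap.comp_assoc]

theorem VC_of_retract (s : C(X, Y)) (r : C(Y, X)) (h : r.comp s = ContinuousMap.id X) (n : ℕ)
    (hY : VC Y n) : VC X n := by
  intro c hc
  have e1 : altd ℤ (sface (X := Y)) (n + 1) (pb r c) = 0 := by
    rw [altd_pb, hc]
    rfl
  obtain ⟨b', hb'⟩ := hY _ e1
  refine ⟨pb s b', ?_⟩
  rw [altd_pb, ← hb']
  funext σ
  change c σ = c (r.comp (s.comp σ))
  rw [← ContinuousMap.comp_assoc, h, ContinuousMap.id_comp]

theorem VC_of_equiv (e : ContinuousMap.HomotopyEquiv X Y) (n : ℕ) (hY : VC Y n) : VC X n := by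
  obtain ⟨F⟩ := e.left_inv
  refine VC_of_homotopy e.toFun e.invFun
    ((F.symm : C(unitInterval × X, X)).comp ⟨Prod.swap, continuous_swap⟩) ?_ ?_ n hY
  · apply ContinuousMap.ext
    intro x
    change F.symm (0, x) = x
    simp
  · apply ContinuousMap.ext
    intro x
    change F.symm (1, x) = _
    simp

end Basic

section Sigma

variable {ι : Type u} {X : ι → Type v} [∀ i, TopologicalSpace (X i)]

instance connected_simplex (n : ℕ) : ConnectedSpace (stdSimplex ℝ (Fin (n + 1))) :=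
  isConnected_iff_connectedSpace.mp
    ((convex_stdSimplex ℝ (Fin (n + 1))).isConnected ⟨_, (vert n 0).2⟩)

theorem VC_sigma (n : ℕ) (h : ∀ i, VC (X i) n) : VC (Σ i, X i) n := by
  classical
  intro c hc
  let mk : ∀ i, C(X i, Σ i, X i) := fun i => ⟨Sigma.mk i, continuous_sigmaMk⟩
  have hi : ∀ i, ∃ b : Sing (X i) n → ℤ, pb (mk i) c = altd ℤ (sface (X := X i)) n b := by
    intro i
    apply h i
    rw [altd_pb, hc]
    rfl
  choose b hb using hi
  have hlift : ∀ {m : ℕ} (σ : Sing (Σ i, X i) m), ∃ (i : ι) (g : Sing (X i) m), σ = (mk i).comp g := by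
    intro m σ
    obtain ⟨i, g, hg, hσ⟩ := Continuous.exists_lift_sigma σ.continuous
    exact ⟨i, ⟨g, hg⟩, ContinuousMap.ext fun t => congrFun hσ t⟩
  choose I G hG using fun σ : Sing (Σ i, X i) n => hlift σ
  have key : ∀ (i : ι) (g : Sing (X i) n), b (I ((mk i).comp g)) (G ((mk i).comp g)) = b i g := by
    intro i g
    have h1 := hG ((mk i).comp g)
    have h2 : I ((mk i).comp g) = i := by
      have := congrArg (fun f => (f (vert n 0)).1) h1
      exact this.symm
    generalize G ((mk i).comp g) = g' at *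
    generalize I ((mk i).comp g) = j at *
    subst h2
    congr 1
    apply ContinuousMap.ext
    intro t
    have := congrArg (fun f => f t) h1
    exact (sigma_mk_injective this).symm
  refine ⟨fun σ => b (I σ) (G σ), ?_⟩
  funext σ
  obtain ⟨i, g, rfl⟩ := hlift σ
  have h3 := congrFun (hb i) g
  change c ((mk i).comp g) = _ at h3
  rw [h3, altd_apply, altd_apply]
  refine Finset.sum_congr rfl fun j _ => ?_
  have h4 : sface n j ((mk i).comp g) = (mk i).comp (sface n j g) := rfl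
  rw [h4, key]

end Sigma

section Glue

variable {X : Type u} [TopologicalSpace X]

theorem VC_rel (A : Set X) (n : ℕ) (hA : VC A n) (c : Sing X (n + 1) → ℤ)
    (hc : ∀ σ : Sing X (n + 2), Set.range σ ⊆ A → altd ℤ (sface (X := X)) (n + 1) c σ = 0) :
    ∃ b : Sing X n → ℤ, ∀ σ : Sing X (n + 1), Set.range σ ⊆ A →
      c σ = altd ℤ (sface (X := X)) n b σ := by
  obtain ⟨b, hb⟩ := hA (pb (incl A) c) (by
    funext σ
    rw [altd_pb]
    apply hc
    rintro _ ⟨t, rfl⟩
    exact (σ t).2)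
  refine ⟨ext0 A b, fun σ h => ?_⟩
  rw [altd_ext0 A b σ h, ← hb]
  rfl

open Classical in
/-- Mayer-Vietoris, vanishing form -/
theorem VC_glue (U V : Set X) (hU : IsOpen U) (hV : IsOpen V) (hUV : ∀ x, x ∈ U ∨ x ∈ V) (n : ℕ)
    (aU : VC U (n + 1)) (aV : VC V (n + 1)) (hI : VC (U ∩ V : Set X) n) : VC X (n + 1) := by
  intro c hc
  obtain ⟨u, hu⟩ := VC_rel U (n + 1) aU c (fun σ _ => congrFun hc σ)
  obtain ⟨v, hv⟩ := VC_rel V (n + 1) aV c (fun σ _ => congrFun hc σ)
  obtain ⟨e, he⟩ := VC_rel (U ∩ V) n hI (u - v) (by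
    intro σ hσ
    rw [map_sub, Pi.sub_apply, ← hu σ (hσ.trans Set.inter_subset_left),
      ← hv σ (hσ.trans Set.inter_subset_right), sub_self])
  let w : Sing X (n + 1) → ℤ := fun σ =>
    if Set.range σ ⊆ U then (u - altd ℤ (sface (X := X)) n e) σ else v σ
  have wU : ∀ σ : Sing X (n + 1), Set.range σ ⊆ U →
      w σ = (u - altd ℤ (sface (X := X)) n e) σ := fun σ hσ => if_pos hσ
  have wV : ∀ σ : Sing X (n + 1), Set.range σ ⊆ V → w σ = v σ := by
    intro σ hσ
    by_cases hσ' : Set.range σ ⊆ U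
    · rw [wU σ hσ', Pi.sub_apply, ← he σ (Set.subset_inter hσ' hσ), Pi.sub_apply]
      ring
    · exact if_neg hσ'
  apply cobound_of_small {U, V} _ _ (n + 1) c hc w
  · rintro σ ⟨C, hC, hσ⟩
    rcases hC with rfl | hC
    · rw [altd_congr wU σ hσ, map_sub, saltd_saltd, sub_zero]
      exact hu σ hσ
    · rw [Set.mem_singleton_iff] at hC
      subst hC
      rw [altd_congr wV σ hσ]
      exact hv σ hσ
  · rintro C (rfl | hC)
    · exact hU
    · rw [Set.mem_singleton_iff] at hC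
      rw [hC]
      exact hV
  · intro x
    rcases hUV x with hx | hx
    · exact ⟨U, by simp, hx⟩
    · exact ⟨V, by simp, hx⟩

/-- the zero-simplex at a point -/
abbrev pt (x : X) : Sing X 0 := ContinuousMap.const _ x

theorem eq_pt (σ : Sing X 0) : σ = pt (σ (vert 0 0)) := by
  apply ContinuousMap.ext
  intro t
  have : t = vert 0 0 := Subsingleton.elim (α := stdSimplex ℝ (Fin 1)) _ _
  rw [this]
  rfl

open Classical in
/-- Mayer-Vietoris in degree one, path connected intersection -/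
theorem VC_glue_zero (U V : Set X) (hU : IsOpen U) (hV : IsOpen V) (hUV : ∀ x, x ∈ U ∨ x ∈ V)
    (aU : VC U 0) (aV : VC V 0)
    (hI : ∀ x ∈ U ∩ V, ∀ y ∈ U ∩ V, ∃ σ : Sing X 1, Set.range σ ⊆ U ∩ V ∧
      sface 0 0 σ = pt x ∧ sface 0 1 σ = pt y) : VC X 0 := by
  intro c hc
  obtain ⟨u, hu⟩ := VC_rel U 0 aU c (fun σ _ => congrFun hc σ)
  obtain ⟨v, hv⟩ := VC_rel V 0 aV c (fun σ _ => congrFun hc σ)
  have hk : ∃ κ : ℤ, ∀ x ∈ U ∩ V, u (pt x) - v (pt x) = κ := by
    by_cases hne : (U ∩ V).Nonempty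
    · obtain ⟨y, hy⟩ := hne
      refine ⟨u (pt y) - v (pt y), fun x hx => ?_⟩
      obtain ⟨σ, h1, h2, h3⟩ := hI x hx y hy
      have h4 := hu σ (h1.trans Set.inter_subset_left)
      have h5 := hv σ (h1.trans Set.inter_subset_right)
      rw [altd_apply, Fin.sum_univ_two, h2, h3] at h4 h5
      simp only [Fin.val_zero, pow_zero, one_mul, Fin.val_one, pow_one, neg_mul] at h4 h5
      linarith
    · exact ⟨0, fun x hx => absurd ⟨x, hx⟩ hne⟩
  obtain ⟨κ, hκ⟩ := hk
  let w : Sing X 0 → ℤ := fun σ => if Set.range σ ⊆ U then u σ - κ else v σ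
  have wU : ∀ σ : Sing X 0, Set.range σ ⊆ U → w σ = (u - (fun _ => κ : Sing X 0 → ℤ)) σ := fun σ hσ => if_pos hσ
  have wV : ∀ σ : Sing X 0, Set.range σ ⊆ V → w σ = v σ := by
    intro σ hσ
    by_cases hσ' : Set.range σ ⊆ U
    · rw [wU σ hσ', Pi.sub_apply]
      have := hκ (σ (vert 0 0)) ⟨hσ' ⟨_, rfl⟩, hσ ⟨_, rfl⟩⟩
      rw [← eq_pt] at this
      linarith
    · exact if_neg hσ'
  apply cobound_of_small {U, V} _ _ 0 c hc w
  · rintro σ ⟨C, hC, hσ⟩
    rcases hC with rfl | hC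
    · rw [altd_congr wU σ hσ, map_sub, Pi.sub_apply, ← hu σ hσ]
      rw [altd_apply, Fin.sum_univ_two]
      simp
    · rw [Set.mem_singleton_iff] at hC
      subst hC
      rw [altd_congr wV σ hσ]
      exact hv σ hσ
  · rintro C (rfl | hC)
    · exact hU
    · rw [Set.mem_singleton_iff] at hC
      rw [hC]
      exact hV
  · intro x
    rcases hUV x with hx | hx
    · exact ⟨U, by simp, hx⟩
    · exact ⟨V, by simp, hx⟩

end Glue

end Pool.Agent.W637.CBH
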