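import Pool.Agent.W637.CBH.Defs
import Pool.Agent.Helper663.Sc.OrdSpace
import Pool.Agent.W637.CBH.VC

/-! The geometric realization (weak topology) of an abstract simplicial complex. -/

namespace Pool.Agent.W637.CBH

open Pool.Agent.Helper663.Sc

universe u v

section

variable {V : Type u} {K : Finset V → Prop}

theorem real_isOpen_iff (U : Set (Real K)) :
    IsOpen U ↔ ∀ s hs, IsOpen (cell K s hs ⁻¹' U) := by
  rw [isOpen_iSup_iff]
  constructor
  · intro h s hs
    exact isOpen_coinduced.mp (h ⟨s, hs⟩)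
  · intro h s
    exact isOpen_coinduced.mpr (h s.1 s.2)

theorem real_continuous_iff {Z : Type v} [TopologicalSpace Z] (f : Real K → Z) :
    Continuous f ↔ ∀ s hs, Continuous (f ∘ cell K s hs) := by
  constructor
  · intro h s hs
    refine h.comp ?_
    rw [continuous_def]
    intro U hU
    exact (real_isOpen_iff U).mp hU s hs
  · intro h
    rw [continuous_def]
    intro W hW
    rw [real_isOpen_iff]
    intro s hs
    exact hW.preimage (h s hs)

theorem continuous_cell (s : Finset V) (hs : K s) : Continuous (cell K s hs) :=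
  (real_continuous_iff (id : Real K → Real K)).mp continuous_id s hs

theorem cell_mem (s : Finset V) (hs : K s) (y : stdSimplex ℝ {v // v ∈ s}) (v : V) (h : v ∈ s) :
    (cell K s hs y).co v = y.1 ⟨v, h⟩ := by
  simp [cell, h]

theorem cell_not_mem (s : Finset V) (hs : K s) (y : stdSimplex ℝ {v // v ∈ s}) (v : V)
    (h : v ∉ s) : (cell K s hs y).co v = 0 := by
  simp [cell, h]

/-- restrict coordinates to a simplex containing the support -/
noncomputable def rest (s : Finset V) (x : V → ℝ) (h0 : ∀ v, 0 ≤ x v) (h1 : ∑ v ∈ s, x v = 1) :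
    stdSimplex ℝ {v // v ∈ s} :=
  ⟨fun v => x v.1, fun v => h0 _, by rw [Finset.sum_coe_sort s x]; exact h1⟩

theorem cell_rest (s : Finset V) (hs : K s) (x : Real K) (h0 : ∀ v, 0 ≤ x.co v)
    (h1 : ∑ v ∈ s, x.co v = 1) (h2 : ∀ v, v ∉ s → x.co v = 0) :
    cell K s hs (rest s x.co h0 h1) = x := by
  apply Real.ext
  funext v
  by_cases h : v ∈ s
  · rw [cell_mem _ _ _ _ h]; rfl
  · rw [cell_not_mem _ _ _ _ h, h2 v h]

theorem nonneg (x : Real K) (v : V) : 0 ≤ x.co v := by
  obtain ⟨s, _, h, _⟩ := x.mem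
  exact h v

theorem exists_pos (x : Real K) : ∃ v, 0 < x.co v := by
  obtain ⟨s, _, h0, _, h1⟩ := x.mem
  by_contra hcon
  push Not at hcon
  have : ∑ v ∈ s, x.co v = 0 := Finset.sum_eq_zero fun v _ => le_antisymm (hcon v) (h0 v)
  rw [this] at h1
  exact zero_ne_one h1

theorem continuous_coord (v : V) : Continuous fun x : Real K => x.co v := by
  rw [real_continuous_iff]
  intro s hs
  by_cases h : v ∈ s
  · have : ((fun x : Real K => x.co v) ∘ cell K s hs) = fun y => y.1 ⟨v, h⟩ := by
      funext y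
      exact cell_mem _ _ _ _ h
    rw [this]
    exact (continuous_apply _).comp continuous_subtype_val
  · have : ((fun x : Real K => x.co v) ∘ cell K s hs) = fun y => 0 := by
      funext y
      exact cell_not_mem _ _ _ _ h
    rw [this]
    exact continuous_const

/-- open star of the simplex `t` -/
def St (K : Finset V → Prop) (t : Finset V) : Set (Real K) := {x | ∀ v ∈ t, 0 < x.co v}

theorem isOpen_St (t : Finset V) : IsOpen (St K t) := by
  have : St K t = ⋂ v ∈ t, (fun x : Real K => x.co v) ⁻¹' Set.Ioi 0 := by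
    ext x
    simp [St]
  rw [this]
  exact isOpen_biInter_finset fun v _ => isOpen_Ioi.preimage (continuous_coord v)

/-- functions on the product of an open subset with a locally compact space -/
theorem continuous_on_open {Z : Type v} [TopologicalSpace Z] {Y : Type} [TopologicalSpace Y]
    [LocallyCompactSpace Y] (U : Set (Real K)) (hU : IsOpen U) (f : Y × U → Z)
    (hf : ∀ s hs, Continuous fun p : Y × {y : stdSimplex ℝ {v // v ∈ s} // cell K s hs y ∈ U} =>
      f (p.1, ⟨cell K s hs p.2.1, p.2.2⟩)) : Continuous f := by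
  let P : {s : Finset V // K s} → Type u := fun s =>
    {y : stdSimplex ℝ {v // v ∈ s.1} // cell K s.1 s.2 y ∈ U}
  let φ : (Σ s, P s) → U := fun z => ⟨cell K z.1.1 z.1.2 z.2.1, z.2.2⟩
  have hφ : Topology.IsQuotientMap φ := by
    rw [Topology.isQuotientMap_iff]
    refine ⟨Topology.isCoinducing_iff.mpr fun S => ⟨?_, ?_⟩, ?_⟩
    rotate_left
    · intro hS
      refine hS.preimage ?_
      rw [continuous_sigma_iff]
      intro s
      exact ((continuous_cell s.1 s.2).comp continuous_subtype_val).subtype_mk _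
    · rintro ⟨x, hx⟩
      obtain ⟨s, hs, h0, h2, h1⟩ := x.mem
      refine ⟨⟨⟨s, hs⟩, ⟨rest s x.co h0 h1, ?_⟩⟩, ?_⟩
      · change cell K s hs _ ∈ U
        rw [cell_rest s hs x h0 h1 h2]; exact hx
      · apply Subtype.ext
        exact cell_rest s hs x h0 h1 h2
    · intro hS
      rw [isOpen_induced_iff]
      refine ⟨Subtype.val '' S, ?_, Set.preimage_image_eq _ Subtype.val_injective⟩
      rw [real_isOpen_iff]
      intro s hs
      let j : {y : stdSimplex ℝ {v // v ∈ s} // cell K s hs y ∈ U} → (Σ s, P s) :=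
        fun y => ⟨⟨s, hs⟩, y⟩
      have h1 : IsOpen (j ⁻¹' (φ ⁻¹' S)) := (isOpen_sigma_iff.mp hS) ⟨s, hs⟩
      have h2 : cell K s hs ⁻¹' (Subtype.val '' S) = Subtype.val '' (j ⁻¹' (φ ⁻¹' S)) := by
        ext y
        constructor
        · rintro ⟨z, hz, hzy⟩
          refine ⟨⟨y, ?_⟩, ?_, rfl⟩
          · rw [← hzy]; exact z.2
          · change φ _ ∈ S
            have : φ (j ⟨y, by rw [← hzy]; exact z.2⟩) = z := Subtype.ext hzy.symm
            rw [this]; exact hz
        · rintro ⟨z, hz, rfl⟩
          exact ⟨_, hz, rfl⟩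
      rw [h2]
      have h3 : IsOpen {y : stdSimplex ℝ {v // v ∈ s} | cell K s hs y ∈ U} :=
        (real_isOpen_iff U).mp hU s hs
      exact h3.isOpenMap_subtype_val _ h1
  apply hφ.continuous_lift_prod_right
  have : (fun p : Y × (Σ s, P s) => f (p.1, φ p.2)) =
      (fun q : (Σ s, P s × Y) => f (q.2.2, φ ⟨q.1, q.2.1⟩)) ∘
        (Homeomorph.sigmaProdDistrib (X := P) (Y := Y)) ∘ Prod.swap := by
    funext p
    rfl
  rw [this]
  refine Continuous.comp ?_ ((Homeomorph.continuous _).comp continuous_swap)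
  rw [continuous_sigma_iff]
  rintro ⟨s, hs⟩
  exact (hf s hs).comp continuous_swap

end

end Pool.Agent.W637.CBH
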