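import Pool.Agent.W637.CBH.Defs
import Pool.Agent.W637.CBH.VC

/-! Contractible pieces of spheres, and `H^1 = 0` for the three-sphere minus two points. -/

namespace Pool.Agent.W637.CBH

open Pool.Agent.Helper663.Sc

section

variable {d : ℕ}

theorem sph_norm (x : Sph d) : ‖x.1‖ = 1 := by
  simp

/-- segment point -/
noncomputable def seg (p x : Sph d) (t : unitInterval) : EuclideanSpace ℝ (Fin (d + 1)) :=
  (1 - t.1) • x.1 + t.1 • p.1

theorem seg_ne (p x : Sph d) (t : unitInterval) (h : x ≠ -p) : seg p x t ≠ 0 := by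
  intro h0
  have h1 : (1 - t.1) • x.1 = (-t.1) • p.1 := by
    rw [seg] at h0
    rw [neg_smul]
    exact eq_neg_of_add_eq_zero_left h0
  have h2 := congrArg norm h1
  rw [norm_smul, norm_smul, sph_norm, sph_norm, mul_one, mul_one, Real.norm_eq_abs,
    Real.norm_eq_abs, abs_neg, abs_of_nonneg t.2.1, abs_of_nonneg (by linarith [t.2.2])] at h2
  have ht : t.1 = 1 / 2 := by linarith
  apply h
  apply Subtype.ext
  rw [ht] at h1
  have h3 : (1 / 2 : ℝ) • x.1 = (1 / 2 : ℝ) • (-p.1) := by
    rw [smul_neg, ← neg_smul]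
    convert h1 using 2
    norm_num
  exact smul_right_injective _ (by norm_num : (1 / 2 : ℝ) ≠ 0) h3

open Classical in
/-- normalized segment -/
noncomputable def gg (p x : Sph d) (t : unitInterval) : Sph d :=
  if h : seg p x t ≠ 0 then ⟨‖seg p x t‖⁻¹ • seg p x t, by
    have : ‖seg p x t‖ ≠ 0 := norm_ne_zero_iff.mpr h
    simp [norm_smul, this]⟩ else p

theorem gg_coe (p x : Sph d) (t : unitInterval) (h : x ≠ -p) :
    (gg p x t).1 = ‖seg p x t‖⁻¹ • seg p x t := by
  rw [gg, dif_pos (seg_ne p x t h)]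

theorem gg_zero (p x : Sph d) (h : x ≠ -p) : gg p x 0 = x := by
  apply Subtype.ext
  rw [gg_coe p x 0 h]
  have : seg p x 0 = x.1 := by simp [seg]
  rw [this, sph_norm]
  simp

theorem gg_one (p x : Sph d) (h : x ≠ -p) : gg p x 1 = p := by
  apply Subtype.ext
  rw [gg_coe p x 1 h]
  have : seg p x 1 = p.1 := by simp [seg]
  rw [this, sph_norm]
  simp

theorem ne_neg_self (p : Sph d) : p ≠ -p := by
  intro h
  have h1 := congrArg Subtype.val h
  have h2 : p.1 = -p.1 := h1
  have h3' : (2 : ℝ) • p.1 = 0 := by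
    rw [two_smul]
    calc p.1 + p.1 = p.1 + -p.1 := by rw [← h2]
      _ = 0 := by simp
  have h3 : p.1 = 0 := (smul_eq_zero.mp h3').resolve_left (by norm_num)
  have h4 := sph_norm p
  rw [h3] at h4
  simp at h4

theorem gg_self (p : Sph d) (t : unitInterval) : gg p p t = p := by
  apply Subtype.ext
  rw [gg_coe p p t (ne_neg_self p)]
  have : seg p p t = p.1 := by
    rw [seg, ← add_smul]
    simp
  rw [this, sph_norm]
  simp

theorem continuous_gg {Z : Type*} [TopologicalSpace Z] (p : Sph d) (f : Z → Sph d)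
    (hf : Continuous f) (τ : Z → unitInterval) (hτ : Continuous τ) (h : ∀ z, f z ≠ -p) :
    Continuous fun z => gg p (f z) (τ z) := by
  rw [continuous_induced_rng]
  have h1 : (Subtype.val ∘ fun z => gg p (f z) (τ z)) =
      fun z => ‖seg p (f z) (τ z)‖⁻¹ • seg p (f z) (τ z) := by
    funext z
    exact gg_coe p _ _ (h z)
  rw [h1]
  have h2 : Continuous fun z => seg p (f z) (τ z) := by
    unfold seg
    have a : Continuous fun z => (f z).1 := continuous_subtype_val.comp hf
    have b : Continuous fun z => (τ z).1 := continuous_subtype_val.comp hτ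
    exact ((continuous_const.sub b).smul a).add (b.smul continuous_const)
  exact (h2.norm.inv₀ fun z => norm_ne_zero_iff.mpr (seg_ne p _ _ (h z))).smul h2

/-- A set which is stable under the normalized segments towards `p` is acyclic. -/
theorem AC_gg (p : Sph d) (A : Set (Sph d)) (h : ∀ x ∈ A, x ≠ -p)
    (hA : ∀ x ∈ A, ∀ t, gg p x t ∈ A) : AC A := by
  refine AC_of_const ⟨fun z : A × unitInterval => ⟨gg p z.1.1 z.2, hA _ z.1.2 _⟩,
    (continuous_gg p (fun z : A × unitInterval => z.1.1)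
      (continuous_subtype_val.comp continuous_fst) Prod.snd continuous_snd
      (fun z => h _ z.1.2)).subtype_mk _⟩ ?_ ?_
  · apply ContinuousMap.ext
    intro x
    apply Subtype.ext
    exact gg_zero p x.1 (h _ x.2)
  · intro n σ t
    apply Subtype.ext
    change gg p (σ t).1 1 = gg p (σ _).1 1
    rw [gg_one p _ (h _ (σ t).2), gg_one p _ (h _ (σ _).2)]

end

/-- the point `(0, 1, 0, …, 0)` of the three-sphere -/
noncomputable def pole : Sph 3 :=
  ⟨EuclideanSpace.single 1 1, by simp⟩

/-- three-sphere minus two points -/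
def A2 : Set (Sph 3) := {x | x ≠ base 3 ∧ x ≠ -base 3}

theorem gg_coord {d : ℕ} (p x : Sph d) (t : unitInterval) (h : x ≠ -p) :
    ∃ r : ℝ, 0 < r ∧ ∀ i, (gg p x t).1 i = r * ((1 - t.1) * x.1 i + t.1 * p.1 i) := by
  refine ⟨‖seg p x t‖⁻¹, inv_pos.mpr (norm_pos_iff.mpr (seg_ne p x t h)), fun i => ?_⟩
  rw [gg_coe p x t h]
  simp [seg]
  ring

theorem gg_ne {d : ℕ} (p x : Sph d) (t : unitInterval) (h : x ≠ -p) : gg p x t ≠ -p := by
  intro h0
  have h1 := congrArg Subtype.val h0
  rw [gg_coe p x t h] at h1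
  have h2 : seg p x t = -(‖seg p x t‖ • p.1) := by
    have h3 : ‖seg p x t‖ ≠ 0 := norm_ne_zero_iff.mpr (seg_ne p x t h)
    have h4 := congrArg (fun y => ‖seg p x t‖ • y) h1
    simp only [smul_smul, mul_inv_cancel₀ h3, one_smul] at h4
    refine h4.trans ?_
    change ‖seg p x t‖ • (-p.1) = _
    rw [smul_neg]
  have h5 : (1 - t.1) • x.1 = (-(‖seg p x t‖ + t.1)) • p.1 := by
    have h6 : (1 - t.1) • x.1 = seg p x t - t.1 • p.1 := by rw [seg]; simp
    rw [h6, neg_smul, add_smul, neg_add, ← h2]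
    rfl
  have h7 := congrArg norm h5
  rw [norm_smul, norm_smul, sph_norm, sph_norm, mul_one, mul_one, Real.norm_eq_abs,
    Real.norm_eq_abs, abs_neg, abs_of_nonneg (add_nonneg (norm_nonneg _) t.2.1),
    abs_of_nonneg (by linarith [t.2.2])] at h7
  apply h
  apply Subtype.ext
  rw [← h7, neg_smul] at h5
  have h8 : (1 - t.1) ≠ 0 := by
    have h3 : 0 < ‖seg p x t‖ := norm_pos_iff.mpr (seg_ne p x t h)
    have := t.2.1
    linarith
  have h9 : (1 - t.1) • x.1 = (1 - t.1) • (-p.1) := by rw [h5, smul_neg]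
  exact smul_right_injective _ h8 h9

theorem AC_compl (d : ℕ) : AC ({x : Sph d | x ≠ base d} : Set (Sph d)) := by
  apply AC_gg (-base d)
  · intro x hx
    rw [neg_neg]
    exact hx
  · intro x hx t
    have := gg_ne (-base d) x t (by rw [neg_neg]; exact hx)
    rw [neg_neg] at this
    exact this

/-- half spaces -/
def PP (ε : ℝ) : Set (Sph 3) := {x | 0 < ε * x.1 1 ∨ x.1 2 ≠ 0 ∨ x.1 3 ≠ 0}

theorem base_coord (i : Fin 4) (hi : i ≠ 0) : (base 3).1 i = 0 := by
  simp [base, hi]

theorem neg_base_coord (i : Fin 4) (hi : i ≠ 0) : (-base 3).1 i = 0 := by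
  change (-(base 3).1) i = 0
  simp [base, hi]

theorem PP_sub (ε : ℝ) : PP ε ⊆ A2 := by
  intro x hx
  constructor
  · rintro rfl
    rcases hx with h | h | h
    · rw [base_coord 1 (by decide)] at h; simp at h
    · exact h (base_coord 2 (by decide))
    · exact h (base_coord 3 (by decide))
  · rintro rfl
    rcases hx with h | h | h
    · rw [neg_base_coord 1 (by decide)] at h; simp at h
    · exact h (neg_base_coord 2 (by decide))
    · exact h (neg_base_coord 3 (by decide))

theorem mem_A2_iff (x : Sph 3) : x ∈ A2 ↔ x ∈ PP 1 ∨ x ∈ PP (-1) := by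
  constructor
  · rintro ⟨h1, h2⟩
    by_contra hcon
    simp only [PP, Set.mem_ofPred_eq, one_mul, neg_mul, not_or, not_lt, not_not] at hcon
    obtain ⟨⟨a, b, c⟩, a', _⟩ := hcon
    have hx1 : x.1 1 = 0 := by linarith
    have h3 : ‖x.1‖ ^ 2 = 1 := by rw [sph_norm]; norm_num
    rw [EuclideanSpace.norm_sq_eq, Fin.sum_univ_four, hx1, b, c] at h3
    simp only [Real.norm_eq_abs, sq_abs] at h3
    have h4 : (x.1 0 - 1) * (x.1 0 + 1) = 0 := by ring_nf; linarith
    rcases mul_eq_zero.mp h4 with h5 | h5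
    · apply h1
      apply Subtype.ext
      ext i
      by_cases hi : i = 0
      · subst hi
        simp only [base, PiLp.single_apply, if_true]
        linarith
      · rw [base_coord i hi]
        fin_cases i
        · exact absurd rfl hi
        · exact hx1
        · exact b
        · exact c
    · apply h2
      apply Subtype.ext
      ext i
      by_cases hi : i = 0
      · subst hi
        change x.1 0 = (-(base 3).1) 0
        simp only [base, PiLp.neg_apply, PiLp.single_apply, if_true]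
        linarith
      · rw [neg_base_coord i hi]
        fin_cases i
        · exact absurd rfl hi
        · exact hx1
        · exact b
        · exact c
  · rintro (h | h) <;> exact PP_sub _ h

theorem isOpen_PP (ε : ℝ) : IsOpen (PP ε) := by
  have hc : ∀ i : Fin 4, Continuous fun x : Sph 3 => x.1 i := fun i => by fun_prop
  refine (isOpen_lt continuous_const (continuous_const.mul (hc 1))).union ?_
  exact (isOpen_ne_fun (hc 2) continuous_const).union (isOpen_ne_fun (hc 3) continuous_const)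

theorem AC_PP (p : Sph 3) (ε : ℝ) (h1 : ε * p.1 1 = 1) (h2 : p.1 2 = 0) (h3 : p.1 3 = 0) :
    AC (PP ε) := by
  have hne : ∀ x ∈ PP ε, x ≠ -p := by
    rintro x hx rfl
    have e : ∀ i, (-p).1 i = - p.1 i := fun i => by
      change (-p.1) i = _
      simp
    rcases hx with h | h | h
    · rw [e] at h; linarith
    · rw [e, h2] at h; simp at h
    · rw [e, h3] at h; simp at h
  apply AC_gg p
  · exact hne
  · intro x hx t
    obtain ⟨r, hr, hr2⟩ := gg_coord p x t (hne x hx)
    by_cases ht : t.1 = 1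
    · left
      rw [hr2, ht]
      have : ε * (r * ((1 - 1) * x.1 1 + 1 * p.1 1)) = r * (ε * p.1 1) := by ring
      rw [this, h1]
      linarith
    · have ht' : 0 < 1 - t.1 := sub_pos.mpr (lt_of_le_of_ne t.2.2 ht)
      rcases hx with h | h | h
      · left
        rw [hr2]
        have : ε * (r * ((1 - t.1) * x.1 1 + t.1 * p.1 1)) =
            r * ((1 - t.1) * (ε * x.1 1) + t.1 * (ε * p.1 1)) := by ring
        rw [this, h1]
        have := t.2.1
        positivity
      · right; left
        rw [hr2, h2]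
        have := hr.ne'
        have := ht'.ne'
        simp only [mul_zero, add_zero]
        exact mul_ne_zero ‹_› (mul_ne_zero ‹_› h)
      · right; right
        rw [hr2, h3]
        have := hr.ne'
        have := ht'.ne'
        simp only [mul_zero, add_zero]
        exact mul_ne_zero ‹_› (mul_ne_zero ‹_› h)

/-- the plane `x₂ = x₃ = 0` -/
def pl : Submodule ℝ (EuclideanSpace ℝ (Fin 4)) where
  carrier := {x | x 2 = 0 ∧ x 3 = 0}
  add_mem' := by
    rintro x y ⟨a, b⟩ ⟨c, d⟩
    exact ⟨by simp [a, c], by simp [b, d]⟩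
  zero_mem' := by simp
  smul_mem' := by
    rintro r x ⟨a, b⟩
    exact ⟨by simp [a], by simp [b]⟩

theorem rank_pl : 1 < Module.rank ℝ (EuclideanSpace ℝ (Fin 4) ⧸ pl) := by
  let f : EuclideanSpace ℝ (Fin 4) →ₗ[ℝ] (Fin 2 → ℝ) :=
    { toFun := fun x => ![x 2, x 3]
      map_add' := by intro x y; ext i; fin_cases i <;> simp
      map_smul' := by intro r x; ext i; fin_cases i <;> simp }
  have hker : LinearMap.ker f = pl := by
    ext x
    simp only [LinearMap.mem_ker]
    constructor
    · intro h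
      exact ⟨congrFun h 0, congrFun h 1⟩
    · rintro ⟨a, b⟩
      ext i
      fin_cases i
      · exact a
      · exact b
  have hsur : Function.Surjective f := by
    intro y
    refine ⟨EuclideanSpace.single 2 (y 0) + EuclideanSpace.single 3 (y 1), ?_⟩
    ext i
    fin_cases i
    · simp [f]
    · simp [f]
  have e := f.quotKerEquivOfSurjective hsur
  rw [hker] at e
  rw [e.rank_eq]
  simp

theorem path_PP (x y : Sph 3) (hx : x.1 2 ≠ 0 ∨ x.1 3 ≠ 0) (hy : y.1 2 ≠ 0 ∨ y.1 3 ≠ 0) :
    ∃ γ : C(unitInterval, Sph 3), γ 0 = x ∧ γ 1 = y ∧ ∀ t, (γ t).1 2 ≠ 0 ∨ (γ t).1 3 ≠ 0 := by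
  have hc := isPathConnected_compl_of_one_lt_codim rank_pl
  have hx' : x.1 ∈ (pl : Set (EuclideanSpace ℝ (Fin 4)))ᶜ := by
    rintro ⟨a, b⟩
    rcases hx with h | h
    · exact h a
    · exact h b
  have hy' : y.1 ∈ (pl : Set (EuclideanSpace ℝ (Fin 4)))ᶜ := by
    rintro ⟨a, b⟩
    rcases hy with h | h
    · exact h a
    · exact h b
  obtain ⟨δ, hδ⟩ := hc.joinedIn x.1 hx' y.1 hy'
  have hne : ∀ t, δ t ≠ 0 := by
    intro t h
    apply hδ t
    rw [h]
    exact pl.zero_mem
  have hn : ∀ t, ‖δ t‖ ≠ 0 := fun t => norm_ne_zero_iff.mpr (hne t)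
  refine ⟨⟨fun t => ⟨‖δ t‖⁻¹ • δ t, by simp [norm_smul, hn t]⟩, ?_⟩, ?_, ?_, ?_⟩
  · apply Continuous.subtype_mk
    exact (δ.continuous.norm.inv₀ hn).smul δ.continuous
  · apply Subtype.ext
    change ‖δ 0‖⁻¹ • δ 0 = x.1
    rw [δ.source, sph_norm]
    simp
  · apply Subtype.ext
    change ‖δ 1‖⁻¹ • δ 1 = y.1
    rw [δ.target, sph_norm]
    simp
  · intro t
    have h1 := hδ t
    by_contra hcon
    simp only [ContinuousMap.coe_mk, PiLp.smul_apply, smul_eq_mul, not_or, not_not] at hcon
    apply h1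
    have hi := inv_ne_zero (hn t)
    exact ⟨(mul_eq_zero.mp hcon.1).resolve_left hi, (mul_eq_zero.mp hcon.2).resolve_left hi⟩

/-- `H^1` of the three-sphere minus two points vanishes. -/
theorem VC_A2 : VC A2 0 := by
  let U : Set A2 := Subtype.val ⁻¹' PP 1
  let W : Set A2 := Subtype.val ⁻¹' PP (-1)
  have hU : IsOpen U := (isOpen_PP 1).preimage continuous_subtype_val
  have hW : IsOpen W := (isOpen_PP (-1)).preimage continuous_subtype_val
  apply VC_glue_zero U W hU hW (fun x => (mem_A2_iff x.1).mp x.2)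
  · have := AC_congr (subHomeo A2 U (PP 1) (fun x => ⟨fun h => ⟨PP_sub 1 h, h⟩, fun ⟨_, h⟩ => h⟩))
      (AC_PP pole 1 (by simp [pole]) (by simp [pole]) (by simp [pole]))
    exact this 0
  · have e : ∀ i, (-pole).1 i = - pole.1 i := fun i => by
      change (-pole.1) i = _
      simp
    have := AC_congr (subHomeo A2 W (PP (-1))
      (fun x => ⟨fun h => ⟨PP_sub (-1) h, h⟩, fun ⟨_, h⟩ => h⟩))
      (AC_PP (-pole) (-1) (by rw [e]; simp [pole]) (by rw [e]; simp [pole])
        (by rw [e]; simp [pole]))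
    exact this 0
  · rintro x ⟨hxU, hxW⟩ y ⟨hyU, hyW⟩
    have key : ∀ z : Sph 3, z ∈ PP 1 → z ∈ PP (-1) → (z.1 2 ≠ 0 ∨ z.1 3 ≠ 0) := by
      rintro z (h | h) h'
      · rcases h' with h' | h'
        · linarith
        · exact h'
      · exact h
    obtain ⟨γ, h0, h1, h2⟩ := path_PP y.1 x.1 (key _ hyU hyW) (key _ hxU hxW)
    have hmem : ∀ t, γ t ∈ PP 1 ∧ γ t ∈ PP (-1) := fun t => ⟨Or.inr (h2 t), Or.inr (h2 t)⟩
    let τ : C(Dl 1, unitInterval) := ⟨fun u => ⟨u.1 1, u.2.1 1, by
      have h := u.2.2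
      rw [Fin.sum_univ_two] at h
      linarith [u.2.1 0]⟩, by
        apply Continuous.subtype_mk
        exact (continuous_apply _).comp continuous_subtype_val⟩
    let σ : Sing A2 1 := ⟨fun u => ⟨γ (τ u), PP_sub 1 (hmem _).1⟩,
      (γ.continuous.comp τ.continuous).subtype_mk _⟩
    refine ⟨σ, ?_, ?_, ?_⟩
    · rintro _ ⟨u, rfl⟩
      exact hmem _
    · rw [eq_pt (sface 0 0 σ)]
      apply congrArg
      rw [sface_eq, ContinuousMap.comp_apply, aff_vert]
      apply Subtype.ext
      change γ (τ (vert 1 1)) = x.1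
      have : τ (vert 1 1) = 1 := Subtype.ext (vert_self 1 1)
      rw [this, h1]
    · rw [eq_pt (sface 0 1 σ)]
      apply congrArg
      rw [sface_eq, ContinuousMap.comp_apply, aff_vert]
      apply Subtype.ext
      change γ (τ (vert 1 0)) = y.1
      have : τ (vert 1 0) = 0 := Subtype.ext (vert_ne 1 0 1 (by decide))
      rw [this, h0]

end Pool.Agent.W637.CBH
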