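import Pool.Agent.W637.CBH.Real

/-! Open stars in the geometric realization form a good cover. -/

namespace Pool.Agent.W637.CBH

open Pool.Agent.Helper663.Sc

universe u v

variable {V : Type u} {K : Finset V → Prop}

open Classical in
theorem sum_bar (s t : Finset V) (hts : t ⊆ s) (ht : t.Nonempty) :
    ∑ v ∈ s, (if v ∈ t then (t.card : ℝ)⁻¹ else 0) = 1 := by
  rw [Finset.sum_ite_mem, Finset.inter_eq_right.mpr hts, Finset.sum_const, nsmul_eq_mul]
  have : (t.card : ℝ) ≠ 0 := by
    rw [Nat.cast_ne_zero]; exact ht.card_pos.ne'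
  field_simp

open Classical in
/-- barycenter of a simplex -/
noncomputable def bar (t : Finset V) (hKt : K t) (ht : t.Nonempty) : Real K :=
  ⟨fun v => if v ∈ t then (t.card : ℝ)⁻¹ else 0, t, hKt, by
    intro v
    by_cases h : v ∈ t
    · simp [h]
    · simp [h], by
    intro v h
    simp [h], sum_bar t t le_rfl ht⟩

theorem bar_mem (t : Finset V) (hKt : K t) (ht : t.Nonempty) (v : V) (h : v ∈ t) :
    0 < (bar t hKt ht).co v := by
  have : (0 : ℝ) < t.card := by
    rw [Nat.cast_pos]; exact ht.card_pos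
  simp only [bar, h, if_true]
  positivity

theorem bar_not_mem (t : Finset V) (hKt : K t) (ht : t.Nonempty) (v : V) (h : v ∉ t) :
    (bar t hKt ht).co v = 0 := by
  simp [bar, h]

theorem bar_mem_St (t : Finset V) (hKt : K t) (ht : t.Nonempty) : bar t hKt ht ∈ St K t :=
  fun v h => bar_mem t hKt ht v h

theorem sum_bar' (s t : Finset V) (hts : t ⊆ s) (hKt : K t) (ht : t.Nonempty) :
    ∑ v ∈ s, (bar t hKt ht).co v = 1 := sum_bar s t hts ht

section Push

variable (t : Finset V) (hKt : K t) (ht : t.Nonempty)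

/-- straight line homotopy to the barycenter -/
noncomputable def pushR (p : unitInterval × St K t) : Real K :=
  ⟨fun v => (1 - p.1.1) * p.2.1.co v + p.1.1 * (bar t hKt ht).co v, by
    obtain ⟨s, hs, h0, h2, h1⟩ := p.2.1.mem
    have hts : t ⊆ s := by
      intro v hv
      by_contra hvs
      have := p.2.2 v hv
      rw [h2 v hvs] at this
      exact lt_irrefl _ this
    refine ⟨s, hs, ?_, ?_, ?_⟩
    · intro v
      exact add_nonneg (mul_nonneg (by linarith [p.1.2.2]) (h0 v))
        (mul_nonneg p.1.2.1 (nonneg _ v))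
    · intro v hv
      change (1 - p.1.1) * p.2.1.co v + p.1.1 * (bar t hKt ht).co v = 0
      rw [h2 v hv, bar_not_mem t hKt ht v (fun h => hv (hts h))]
      ring
    · rw [Finset.sum_add_distrib, ← Finset.mul_sum, ← Finset.mul_sum, h1,
        sum_bar' s t hts hKt ht]
      ring⟩

theorem pushR_mem (p : unitInterval × St K t) : pushR t hKt ht p ∈ St K t := by
  intro v hv
  have h1 := p.2.2 v hv
  have h2 := bar_mem t hKt ht v hv
  have h3 := p.1.2.1
  have h4 := p.1.2.2
  change 0 < (1 - p.1.1) * p.2.1.co v + p.1.1 * (bar t hKt ht).co v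
  rcases eq_or_lt_of_le h3 with h5 | h5
  · rw [← h5]; simpa using h1
  · have := mul_pos h5 h2
    have := mul_nonneg (show (0 : ℝ) ≤ 1 - p.1.1 by linarith) h1.le
    linarith

theorem continuous_pushR : Continuous (pushR t hKt ht) := by
  apply continuous_on_open (Y := unitInterval) (St K t) (isOpen_St t)
  intro s hs
  by_cases hts : t ⊆ s
  · let g : unitInterval × {y : stdSimplex ℝ {v // v ∈ s} // cell K s hs y ∈ St K t} →
        stdSimplex ℝ {v // v ∈ s} := fun p =>
      ⟨fun w => (1 - p.1.1) * p.2.1.1 w + p.1.1 * (bar t hKt ht).co w.1, by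
        intro w
        exact add_nonneg (mul_nonneg (by linarith [p.1.2.2]) (p.2.1.2.1 w))
          (mul_nonneg p.1.2.1 (nonneg _ _)), by
        rw [Finset.sum_add_distrib, ← Finset.mul_sum, ← Finset.mul_sum, p.2.1.2.2,
          Finset.sum_coe_sort s (bar t hKt ht).co, sum_bar' s t hts hKt ht]
        ring⟩
    have hg : Continuous g := by
      apply Continuous.subtype_mk
      apply continuous_pi
      intro w
      have h1 : Continuous fun p : unitInterval ×
          {y : stdSimplex ℝ {v // v ∈ s} // cell K s hs y ∈ St K t} => p.2.1.1 w :=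
        (continuous_apply w).comp (continuous_subtype_val.comp
          (continuous_subtype_val.comp continuous_snd))
      have h2 : Continuous fun p : unitInterval ×
          {y : stdSimplex ℝ {v // v ∈ s} // cell K s hs y ∈ St K t} => p.1.1 :=
        continuous_subtype_val.comp continuous_fst
      exact ((continuous_const.sub h2).mul h1).add (h2.mul continuous_const)
    have : (fun p : unitInterval × {y : stdSimplex ℝ {v // v ∈ s} // cell K s hs y ∈ St K t} =>
        pushR t hKt ht (p.1, ⟨cell K s hs p.2.1, p.2.2⟩)) = cell K s hs ∘ g := by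
      funext p
      apply Real.ext
      funext v
      by_cases hv : v ∈ s
      · change (1 - p.1.1) * (cell K s hs p.2.1).co v + p.1.1 * (bar t hKt ht).co v =
          (cell K s hs (g p)).co v
        rw [cell_mem _ _ _ _ hv, cell_mem _ _ _ _ hv]
      · change (1 - p.1.1) * (cell K s hs p.2.1).co v + p.1.1 * (bar t hKt ht).co v =
          (cell K s hs (g p)).co v
        rw [cell_not_mem _ _ _ _ hv, cell_not_mem _ _ _ _ hv,
          bar_not_mem t hKt ht v (fun h => hv (hts h))]
        ring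
    rw [this]
    exact (continuous_cell s hs).comp hg
  · have : IsEmpty (unitInterval × {y : stdSimplex ℝ {v // v ∈ s} // cell K s hs y ∈ St K t}) := by
      constructor
      rintro ⟨_, y, hy⟩
      obtain ⟨v, hv, hvs⟩ := Finset.not_subset.mp hts
      have := hy v hv
      rw [cell_not_mem _ _ _ _ hvs] at this
      exact lt_irrefl _ this
    exact continuous_of_const fun x => (this.false x).elim

include hKt ht in
theorem coneData_St : ConeData (St K t) := by
  refine coneData_of_nullhomotopic (St K t) ⟨bar t hKt ht, bar_mem_St t hKt ht⟩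
    { toFun := fun p => ⟨pushR t hKt ht p, pushR_mem t hKt ht p⟩
      continuous_toFun := (continuous_pushR t hKt ht).subtype_mk _
      map_zero_left := ?_
      map_one_left := ?_ }
  · intro x
    apply Subtype.ext
    apply Real.ext
    funext v
    change (1 - (0 : ℝ)) * x.1.co v + 0 * (bar t hKt ht).co v = x.1.co v
    ring
  · intro x
    apply Subtype.ext
    apply Real.ext
    funext v
    change (1 - (1 : ℝ)) * x.1.co v + 1 * (bar t hKt ht).co v = (bar t hKt ht).co v
    ring

end Push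

/-- the family of open stars -/
def SS (K : Finset V → Prop) : Set (Set (Real K)) := {C | ∃ t : Finset V, K t ∧ t.Nonempty ∧ C = St K t}

theorem St_mono {s t : Finset V} (h : t ⊆ s) : St K s ⊆ St K t := fun _ hx v hv => hx v (h hv)

theorem St_subset_iff {s t : Finset V} (hKs : K s) (hs : s.Nonempty) :
    St K s ⊆ St K t ↔ t ⊆ s := by
  constructor
  · intro h v hv
    by_contra hvs
    have := h (bar_mem_St s hKs hs) v hv
    rw [bar_not_mem s hKs hs v hvs] at this
    exact lt_irrefl _ this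
  · exact St_mono

theorem St_inj {s t : Finset V} (hKs : K s) (hs : s.Nonempty) (hKt : K t) (ht : t.Nonempty)
    (h : St K s = St K t) : s = t :=
  Finset.Subset.antisymm ((St_subset_iff hKt ht).mp h.symm.le) ((St_subset_iff hKs hs).mp h.le)

theorem SS_open : ∀ C ∈ SS K, IsOpen C := by
  rintro _ ⟨t, _, _, rfl⟩
  exact isOpen_St t

theorem SS_cover (hK : ∀ s t, K s → t ⊆ s → t.Nonempty → K t) :
    ∀ x : Real K, ∃ C ∈ SS K, x ∈ C := by
  intro x
  obtain ⟨v, hv⟩ := exists_pos x
  obtain ⟨s, hs, h0, h2, h1⟩ := x.mem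
  have hvs : v ∈ s := by
    by_contra h
    rw [h2 v h] at hv
    exact lt_irrefl _ hv
  refine ⟨St K {v}, ⟨{v}, hK s _ hs (by simpa using hvs) (by simp), by simp, rfl⟩, ?_⟩
  intro w hw
  rw [Finset.mem_singleton] at hw
  rw [hw]
  exact hv

theorem SS_cap (hK : ∀ s t, K s → t ⊆ s → t.Nonempty → K t)
    (σ : Σ n, Sing (Real K) n) (h : ∃ C ∈ SS K, Set.range σ.2 ⊆ C) :
    ∃ J ∈ SS K, Set.range σ.2 ⊆ J ∧ ∀ C ∈ SS K, Set.range σ.2 ⊆ C → J ⊆ C := by
  classical
  obtain ⟨n, σ⟩ := σ
  obtain ⟨_, ⟨t, hKt, ht, rfl⟩, hσ⟩ := h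
  simp only at hσ ⊢
  obtain ⟨s, hs, h0, h2, h1⟩ := (σ (vert n 0)).mem
  let M : Finset V := s.filter fun v => ∀ u, 0 < (σ u).co v
  have hM : ∀ t' : Finset V, Set.range σ ⊆ St K t' → t' ⊆ M := by
    intro t' ht' v hv
    have hall : ∀ u, 0 < (σ u).co v := fun u => ht' ⟨u, rfl⟩ v hv
    refine Finset.mem_filter.mpr ⟨?_, hall⟩
    by_contra hvs
    have := hall (vert n 0)
    rw [h2 v hvs] at this
    exact lt_irrefl _ this
  refine ⟨St K M, ⟨M, hK s M hs (Finset.filter_subset _ _) (ht.mono (hM t hσ)),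
    ht.mono (hM t hσ), rfl⟩, ?_, ?_⟩
  · rintro _ ⟨u, rfl⟩ v hv
    exact (Finset.mem_filter.mp hv).2 u
  · rintro _ ⟨t', _, _, rfl⟩ hσ'
    exact St_mono (hM t' hσ')

theorem SS_cone : ∀ C ∈ SS K, ConeData C := by
  rintro _ ⟨t, hKt, ht, rfl⟩
  exact coneData_St t hKt ht

/-- If `H^2` of the realization vanishes, then every cocycle on chains of open stars is a
coboundary. -/
theorem ord_cobound [Nonempty (Real K)] (hK : ∀ s t, K s → t ⊆ s → t.Nonempty → K t) {n : ℕ}
    (h : VC (Real K) n) (g : Ch (SS K) (n + 1) → ℤ)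
    (hg : altd ℤ (cface (Q := SS K)) (n + 1) g = 0) :
    ∃ b : Ch (SS K) n → ℤ, g = altd ℤ (cface (Q := SS K)) n b := by
  obtain ⟨e1⟩ := small_simplices (k := ℤ) (SS K) SS_open (SS_cover hK) (n + 1)
  obtain ⟨e2⟩ := nerve_small (k := ℤ) (SS K) (SS_cap hK) SS_cone (n + 1)
  have hz : ∀ x : SingCoh ℤ (Real K) (n + 1), x = 0 := by
    intro x
    obtain ⟨⟨c, hc⟩, rfl⟩ := Submodule.mkQ_surjective _ x
    obtain ⟨b, hb⟩ := h c hc
    rw [Submodule.mkQ_apply, Submodule.Quotient.mk_eq_zero]
    exact ⟨b, hb.symm⟩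
  have h1 : (Submodule.Quotient.mk ⟨g, hg⟩ : OrdCoh ℤ (SS K) (n + 1)) = 0 := by
    apply e2.symm.injective
    apply e1.symm.injective
    rw [hz (e1.symm (e2.symm _))]
    simp
  rw [Submodule.Quotient.mk_eq_zero] at h1
  obtain ⟨b, hb⟩ := h1
  exact ⟨b, hb.symm⟩

end Pool.Agent.W637.CBH
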