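import Pool.Agent.W637.CBH.Sphere

/-! Wedges of spheres, and `H^2 = 0` for wedges of three-spheres. -/

namespace Pool.Agent.W637.CBH

open Pool.Agent.Helper663.Sc

universe u v

section

variable {ι : Type u} {d : ℕ}

/-- common base point -/
def wb (ι : Type u) (d : ℕ) : Wedge ι d := Quot.mk _ (Sum.inl ())

/-- the `i`-th sphere -/
def ws (i : ι) (x : Sph d) : Wedge ι d := Quot.mk _ (Sum.inr ⟨i, x⟩)

theorem ws_base (i : ι) : ws i (base d) = wb ι d := Quot.sound (WRel.glue i)

/-- points in the class of the base point -/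
def IsB (a : Unit ⊕ (Σ _ : ι, Sph d)) : Prop := ∀ i x, a = Sum.inr ⟨i, x⟩ → x = base d

theorem mk_eq {a b : Unit ⊕ (Σ _ : ι, Sph d)}
    (h : (Quot.mk (WRel ι d) a) = Quot.mk (WRel ι d) b) : a = b ∨ (IsB a ∧ IsB b) := by
  have h1 := Quot.eqvGen_exact h
  clear h
  induction h1 with
  | rel a b hab =>
    right
    cases hab with
    | glue i =>
      constructor
      · intro j x hx
        injection hx with hx
        have := congrArg Sigma.snd hx
        exact this.symm
      · intro j x hx
        cases hx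
  | refl a => exact Or.inl rfl
  | symm a b _ ih =>
    rcases ih with h | h
    · exact Or.inl h.symm
    · exact Or.inr ⟨h.2, h.1⟩
  | trans a b c _ _ ih1 ih2 =>
    rcases ih1 with h | h
    · rw [h]; exact ih2
    · rcases ih2 with h' | h'
      · rw [← h']; exact Or.inr h
      · exact Or.inr ⟨h.1, h'.2⟩

theorem ws_inj {i j : ι} {x y : Sph d} (h : ws i x = ws j y) (hx : x ≠ base d) :
    i = j ∧ x = y := by
  rcases mk_eq h with h | h
  · injection h with h
    injection h with h1 h2
    exact ⟨h1, h2⟩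
  · exact absurd (h.1 i x rfl) hx

theorem ws_ne_wb {i : ι} {x : Sph d} (hx : x ≠ base d) : ws i x ≠ wb ι d := by
  intro h
  rcases mk_eq h with h | h
  · cases h
  · exact hx (h.1 i x rfl)

theorem wedge_cases (w : Wedge ι d) : w = wb ι d ∨ ∃ i x, x ≠ base d ∧ w = ws i x := by
  induction w using Quot.ind with
  | mk a =>
    rcases a with ⟨⟩ | ⟨i, x⟩
    · exact Or.inl rfl
    · by_cases h : x = base d
      · left
        subst h
        exact ws_base i
      · exact Or.inr ⟨i, x, h, rfl⟩

theorem continuous_ws (i : ι) : Continuous (ws i : Sph d → Wedge ι d) :=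
  continuous_quot_mk.comp (continuous_inr.comp continuous_sigmaMk)

theorem wedge_isOpen_iff (S : Set (Wedge ι d)) : IsOpen S ↔ ∀ i, IsOpen (ws i ⁻¹' S) := by
  constructor
  · intro h i
    exact h.preimage (continuous_ws i)
  · intro h
    have hq : Topology.IsQuotientMap (Quot.mk (WRel ι d)) := isQuotientMap_quot_mk
    refine hq.isOpen_preimage.mp ?_
    rw [isOpen_sum_iff]
    refine ⟨isOpen_discrete _, ?_⟩
    rw [isOpen_sigma_iff]
    intro i
    exact h i

/-- functions on the product of an open subset of the wedge with a locally compact space -/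
theorem wedge_continuous_on_open {Z : Type v} [TopologicalSpace Z] {Y : Type} [TopologicalSpace Y]
    [LocallyCompactSpace Y] (U : Set (Wedge ι d)) (hU : IsOpen U) (f : U × Y → Z)
    (h0 : ∀ h : wb ι d ∈ U, Continuous fun t => f (⟨wb ι d, h⟩, t))
    (h1 : ∀ i, Continuous fun p : {x : Sph d // ws i x ∈ U} × Y => f (⟨ws i p.1.1, p.1.2⟩, p.2)) :
    Continuous f := by
  let P0 : Type := {_u : Unit // wb ι d ∈ U}
  let P : ι → Type := fun i => {x : Sph d // ws i x ∈ U}
  let φ : (P0 ⊕ (Σ i, P i)) → U :=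
    Sum.elim (fun z => ⟨wb ι d, z.2⟩) (fun z => ⟨ws z.1 z.2.1, z.2.2⟩)
  have hφ : Topology.IsQuotientMap φ := by
    rw [Topology.isQuotientMap_iff]
    refine ⟨Topology.isCoinducing_iff.mpr fun S => ⟨?_, ?_⟩, ?_⟩
    rotate_left
    · intro hS
      refine hS.preimage ?_
      apply Continuous.sumElim
      · exact continuous_const.subtype_mk _
      · rw [continuous_sigma_iff]
        intro i
        exact ((continuous_ws i).comp continuous_subtype_val).subtype_mk _
    · rintro ⟨w, hw⟩
      rcases wedge_cases w with rfl | ⟨i, x, _, rfl⟩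
      · exact ⟨Sum.inl ⟨(), hw⟩, rfl⟩
      · exact ⟨Sum.inr ⟨i, ⟨x, hw⟩⟩, rfl⟩
    · intro hS
      rw [isOpen_induced_iff]
      refine ⟨Subtype.val '' S, ?_, Set.preimage_image_eq _ Subtype.val_injective⟩
      rw [wedge_isOpen_iff]
      intro i
      let j : P i → (P0 ⊕ (Σ i, P i)) := fun y => Sum.inr ⟨i, y⟩
      have h1 : IsOpen (j ⁻¹' (φ ⁻¹' S)) :=
        hS.preimage (continuous_inr.comp continuous_sigmaMk)
      have h2 : ws i ⁻¹' (Subtype.val '' S) = Subtype.val '' (j ⁻¹' (φ ⁻¹' S)) := by
        ext y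
        constructor
        · rintro ⟨z, hz, hzy⟩
          refine ⟨⟨y, ?_⟩, ?_, rfl⟩
          · rw [← hzy]; exact z.2
          · change φ _ ∈ S
            have : φ (j ⟨y, by rw [← hzy]; exact z.2⟩) = z := Subtype.ext hzy.symm
            rw [this]; exact hz
        · rintro ⟨z, hz, rfl⟩
          exact ⟨_, hz, rfl⟩
      rw [h2]
      have h3 : IsOpen {y : Sph d | ws i y ∈ U} := (wedge_isOpen_iff U).mp hU i
      exact h3.isOpenMap_subtype_val _ h1
  apply hφ.continuous_lift_prod_left
  have : (fun p : (P0 ⊕ (Σ i, P i)) × Y => f (φ p.1, p.2)) =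
      (Sum.elim (fun q : P0 × Y => f (φ (Sum.inl q.1), q.2))
        (fun q : (Σ i, P i) × Y => f (φ (Sum.inr q.1), q.2))) ∘
        (Homeomorph.sumProdDistrib (X := P0) (Y := Σ i, P i) (Z := Y)) := by
    funext ⟨p, y⟩
    rcases p with p | p <;> rfl
  rw [this]
  refine Continuous.comp ?_ (Homeomorph.continuous _)
  apply Continuous.sumElim
  · by_cases hb : wb ι d ∈ U
    · exact (h0 hb).comp continuous_snd
    · have : IsEmpty (P0 × Y) := ⟨fun z => hb z.1.2⟩
      exact continuous_of_const fun x => (this.false x).elim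
  · have : (fun q : (Σ i, P i) × Y => f (φ (Sum.inr q.1), q.2)) =
        (fun q : (Σ i, P i × Y) => f (φ (Sum.inr ⟨q.1, q.2.1⟩), q.2.2)) ∘
          (Homeomorph.sigmaProdDistrib (X := P) (Y := Y)) := by
      funext p
      rfl
    rw [this]
    refine Continuous.comp ?_ (Homeomorph.continuous _)
    rw [continuous_sigma_iff]
    intro i
    exact h1 i

end

end Pool.Agent.W637.CBH
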